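import Pool.Agent.Helper39.OWN.MH

/-!
# MP_0d02c1_nt: the number of vertices of the convex hull of a modular hyperbola

The number of vertices tends to infinity, with an explicit rate and uniformly in the residue class.
-/

set_option autoImplicit false

open Filter

namespace Pool.Agent.Results.MP_0d02c1_nt.UniformVertices

/-- The modular hyperbola: the integer points `(x, y)` with `1 ≤ x, y ≤ n - 1` and `x y = a` modulo `n`. -/
def modHyp (n : ℕ) (a : ℤ) : Set (ℤ × ℤ) :=
  {p : ℤ × ℤ | p.1 * p.2 ≡ a [ZMOD n] ∧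
    1 ≤ p.1 ∧ p.1 ≤ (n : ℤ) - 1 ∧ 1 ≤ p.2 ∧ p.2 ≤ (n : ℤ) - 1}

/-- The number of vertices (extreme points) of the convex hull of the modular hyperbola in the real
plane. -/
noncomputable def v (n : ℕ) (a : ℤ) : ℕ :=
  (Set.extremePoints ℝ (convexHull ℝ
    ((fun p : ℤ × ℤ => ((p.1 : ℝ), (p.2 : ℝ))) '' modHyp n a))).ncard

/-- The number of vertices of the hull of the modular hyperbola `x y = 1` modulo `n` tends to infinity;
in fact, for all large `n` and all `a` coprime to `n`, the hull of the modular hyperbola `x y = a` has at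
least `(log log log n) / 2` vertices. -/
theorem result :
    Tendsto (fun n : ℕ => v n 1) atTop atTop ∧
    ∃ N : ℕ, ∀ n : ℕ, N ≤ n → ∀ a : ℤ, IsCoprime a (n : ℤ) →
      Real.log (Real.log (Real.log n)) / 2 ≤ (v n a : ℝ) := by
  have h : ∃ N : ℕ, ∀ n : ℕ, N ≤ n → ∀ a : ℤ, IsCoprime a (n : ℤ) →
      Real.log (Real.log (Real.log n)) / 2 ≤ (v n a : ℝ) := Pool.Agent.Helper39.OWN.lower
  refine ⟨?_, h⟩
  obtain ⟨N, hN⟩ := h
  rw [← tendsto_natCast_atTop_iff (R := ℝ)]
  have h0 : Tendsto (fun n : ℕ => Real.log (Real.log (Real.log n)) / 2) atTop atTop :=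
    (Real.tendsto_log_atTop.comp (Real.tendsto_log_atTop.comp
      (Real.tendsto_log_atTop.comp tendsto_natCast_atTop_atTop))).atTop_div_const (by norm_num)
  refine tendsto_atTop_mono' atTop ?_ h0
  filter_upwards [eventually_ge_atTop N] with n hn
  exact hN n hn 1 isCoprime_one_left

end Pool.Agent.Results.MP_0d02c1_nt.UniformVertices
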